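import Pool.Agent.Helper19.PS.Defs

/-!
# PS-18: the skew operators of a pencil
-/

open MeasureTheory Set Metric Filter Module Matrix
open scoped NNReal Topology RealInnerProductSpace ENNReal Real

namespace Pool.Agent.Helper19.PS

private theorem ps18_inl0 {d : ℕ} (P₁ P₂ : Matrix (Fin d) (Fin d) ℝ) (a : Fin d → ℝ) (i : Fin d)
    (z₁ z₂ : ℝ) (y : Fin d → ℝ) :
    (NP P₁ P₂ a i *ᵥ vec z₁ z₂ y) (Sum.inl 0) = (-(z₂ • a) - P₁ *ᵥ y) i := by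
  simp [NP, vec, Matrix.mulVec, dotProduct, Fintype.sum_sum_type, Fin.sum_univ_two]
  ring

private theorem ps18_inl1 {d : ℕ} (P₁ P₂ : Matrix (Fin d) (Fin d) ℝ) (a : Fin d → ℝ) (i : Fin d)
    (z₁ z₂ : ℝ) (y : Fin d → ℝ) :
    (NP P₁ P₂ a i *ᵥ vec z₁ z₂ y) (Sum.inl 1) = (z₁ • a - P₂ *ᵥ y) i := by
  simp [NP, vec, Matrix.mulVec, dotProduct, Fintype.sum_sum_type, Fin.sum_univ_two]
  ring

private theorem ps18_inr {d : ℕ} (P₁ P₂ : Matrix (Fin d) (Fin d) ℝ) (a : Fin d → ℝ) (i j : Fin d)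
    (z₁ z₂ : ℝ) (y : Fin d → ℝ) :
    (NP P₁ P₂ a i *ᵥ vec z₁ z₂ y) (Sum.inr j) = (z₁ • P₁ + z₂ • P₂) i j := by
  simp [NP, vec, Matrix.mulVec, dotProduct, Fintype.sum_sum_type, Fin.sum_univ_two]
  ring

theorem NP_gram {d : ℕ} (P₁ P₂ : Matrix (Fin d) (Fin d) ℝ) (a : Fin d → ℝ) (z₁ z₂ : ℝ)
    (y : Fin d → ℝ) :
    (Matrix.of fun i j => (NP P₁ P₂ a i *ᵥ vec z₁ z₂ y) ⬝ᵥ (NP P₁ P₂ a j *ᵥ vec z₁ z₂ y))
      = (z₁ • P₁ + z₂ • P₂) * (z₁ • P₁ + z₂ • P₂)ᵀ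
        + vecMulVec (-(z₂ • a) - P₁ *ᵥ y) (-(z₂ • a) - P₁ *ᵥ y)
        + vecMulVec (z₁ • a - P₂ *ᵥ y) (z₁ • a - P₂ *ᵥ y) := by
  ext i j
  simp only [Matrix.of_apply, dotProduct, Fintype.sum_sum_type, Fin.sum_univ_two, ps18_inl0,
    ps18_inl1, ps18_inr, Matrix.add_apply, Matrix.mul_apply, Matrix.transpose_apply,
    vecMulVec_apply]
  ring

theorem NP_skew {d : ℕ} (P₁ P₂ : Matrix (Fin d) (Fin d) ℝ) (a : Fin d → ℝ) (i : Fin d) :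
    (NP P₁ P₂ a i)ᵀ = -NP P₁ P₂ a i := by
  ext p q
  rcases p with p | p <;> rcases q with q | q
  · fin_cases p <;> fin_cases q <;> simp [NP]
  · fin_cases p <;> simp [NP]
  · fin_cases q <;> simp [NP]
  · simp [NP]

theorem NP_trace {d : ℕ} (P₁ P₂ : Matrix (Fin d) (Fin d) ℝ) (a : Fin d → ℝ) (i j : Fin d) :
    trace ((NP P₁ P₂ a i)ᵀ * NP P₁ P₂ a j)
      = 2 * (P₁ * P₁ᵀ + P₂ * P₂ᵀ + vecMulVec a a) i j := by
  simp only [Matrix.trace, Matrix.diag, Matrix.mul_apply, Matrix.transpose_apply,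
    Matrix.add_apply, vecMulVec_apply, Fintype.sum_sum_type, Fin.sum_univ_two]
  simp [NP, Finset.sum_add_distrib]
  ring

theorem NP_zeta {d : ℕ} (P₁ P₂ : Matrix (Fin d) (Fin d) ℝ) (a : Fin d → ℝ) (φ : ℝ) :
    ∑ i, (NP P₁ P₂ a i *ᵥ vec (Real.cos φ) (Real.sin φ) 0)
        ⬝ᵥ (NP P₁ P₂ a i *ᵥ vec (Real.cos φ) (Real.sin φ) 0)
      = ∑ i, ((∑ j, (Real.cos φ • P₁ + Real.sin φ • P₂) i j ^ 2) + a i ^ 2) := by
  refine Finset.sum_congr rfl fun i _ => ?_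
  simp only [dotProduct, Fintype.sum_sum_type, Fin.sum_univ_two, ps18_inl0,
    ps18_inl1, ps18_inr]
  simp only [Matrix.mulVec_zero, Pi.sub_apply, Pi.neg_apply, Pi.smul_apply, smul_eq_mul,
    Pi.zero_apply, sub_zero]
  have h := Real.sin_sq_add_cos_sq φ
  have e : ∀ j, (Real.cos φ • P₁ + Real.sin φ • P₂) i j * (Real.cos φ • P₁ + Real.sin φ • P₂) i j
      = (Real.cos φ • P₁ + Real.sin φ • P₂) i j ^ 2 := fun j => by ring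
  simp only [e]
  linear_combination (a i ^ 2) * h

end Pool.Agent.Helper19.PS
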